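import Pool.Agent.N431.PK.Stm

set_option autoImplicit false

/-!
# Project PK (helper431), part WR: lifting of homomorphisms on subgroups by coinduction (helper271)
-/

namespace Pool.Agent.N271.PK

open Pool.Agent.N431.PK

section

variable {Q : Type} [Group Q] (K : Subgroup Q)

open Classical in
/-- a section of the cosets -/
noncomputable def sec (x : Q ⧸ K) : Q := if x = QuotientGroup.mk 1 then 1 else Quotient.out x

theorem sec_mk (x : Q ⧸ K) : (QuotientGroup.mk (sec K x) : Q ⧸ K) = x := by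
  unfold sec
  split_ifs with h
  · exact h.symm
  · exact QuotientGroup.out_eq' x

theorem sec_one : sec K (QuotientGroup.mk 1) = 1 := by
  unfold sec
  rw [if_pos rfl]

theorem sec_mem (s : Q) (x : Q ⧸ K) : (sec K x)⁻¹ * s * sec K (s⁻¹ • x) ∈ K := by
  rw [mul_assoc, ← QuotientGroup.eq, sec_mk]
  have h : (QuotientGroup.mk (s * sec K (s⁻¹ • x)) : Q ⧸ K) =
      s • (QuotientGroup.mk (sec K (s⁻¹ • x)) : Q ⧸ K) := rfl
  rw [h, sec_mk, smul_inv_smul]

/-- the wreath product -/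
abbrev Wr (A : Type) [Group A] : Type := (Q ⧸ K → A) ⋊[mulAutArrow] Q

theorem arrow_apply {A : Type} [Group A] (s : Q) (f : Q ⧸ K → A) (x : Q ⧸ K) :
    (mulAutArrow (G := Q) (A := Q ⧸ K) (M := A) s) f x = f (s⁻¹ • x) := rfl

/-- the induced homomorphism -/
noncomputable def Ind {G : Type} [Group G] (φ : K →* G) : Q →* Wr K G where
  toFun s := ⟨fun x => φ ⟨(sec K x)⁻¹ * s * sec K (s⁻¹ • x), sec_mem K s x⟩, s⟩
  map_one' := by
    refine SemidirectProduct.ext ?_ rfl
    funext x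
    show φ _ = 1
    rw [← map_one φ]
    congr 1
    apply Subtype.ext
    show (sec K x)⁻¹ * 1 * sec K ((1 : Q)⁻¹ • x) = 1
    rw [inv_one, one_smul, mul_one, inv_mul_cancel]
  map_mul' s u := by
    refine SemidirectProduct.ext ?_ rfl
    funext x
    rw [SemidirectProduct.mul_left, Pi.mul_apply, arrow_apply]
    show φ _ = φ _ * φ _
    rw [← map_mul]
    congr 1
    apply Subtype.ext
    show (sec K x)⁻¹ * (s * u) * sec K ((s * u)⁻¹ • x) =
      ((sec K x)⁻¹ * s * sec K (s⁻¹ • x)) *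
        ((sec K (s⁻¹ • x))⁻¹ * u * sec K (u⁻¹ • s⁻¹ • x))
    rw [mul_inv_rev, mul_smul]
    group

/-- the map of wreath products -/
def WrMap {E G : Type} [Group E] [Group G] (π : E →* G) : Wr K E →* Wr K G :=
  SemidirectProduct.map (MonoidHom.compLeft π (Q ⧸ K)) (MonoidHom.id Q) (by
    intro s
    ext f x
    rfl)

theorem WrMap_surj {E G : Type} [Group E] [Group G] (π : E →* G) (hπ : Function.Surjective π) :
    Function.Surjective (WrMap K π) := by
  rintro ⟨y, s⟩
  choose r hr using hπ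
  refine ⟨⟨fun x => r (y x), s⟩, ?_⟩
  refine SemidirectProduct.ext ?_ rfl
  funext x
  exact hr (y x)

theorem Wr_finite {A : Type} [Group A] [Finite A] [Finite Q] : Finite (Wr K A) :=
  Finite.of_equiv _ SemidirectProduct.equivProd.symm

theorem Wr_pgroup {p : ℕ} [Fact p.Prime] {A : Type} [Group A] [Finite A] [Finite Q]
    (hA : IsPGroup p A) (hQ : IsPGroup p Q) : IsPGroup p (Wr K A) := by
  obtain ⟨a, ha⟩ := IsPGroup.iff_card.1 hA
  obtain ⟨b, hb⟩ := IsPGroup.iff_card.1 hQ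
  refine IsPGroup.of_card (n := a * Nat.card (Q ⧸ K) + b) ?_
  rw [Nat.card_congr (SemidirectProduct.equivProd (φ := mulAutArrow (G := Q) (A := Q ⧸ K) (M := A))),
    Nat.card_prod, Nat.card_fun, ha, hb, ← pow_mul, ← pow_add]

end

/-- Lifting of continuous homomorphisms on subgroups. -/
theorem t_WR : S_WR := by
  intro p _ P _ hLP H E G _ _ _ hE π hπ φ hφ
  obtain ⟨Q, _, _, q, hQ, hq⟩ := hφ
  obtain ⟨K, hK⟩ : ∃ K : Subgroup Q, K = H.map q := ⟨_, rfl⟩
  have hmem : ∀ h : H, q h ∈ K := fun h => by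
    rw [hK]
    exact Subgroup.mem_map_of_mem q h.2
  -- the homomorphism on the image
  let r : H →* K := (q.comp H.subtype).codRestrict K hmem
  have hr : Function.Surjective r := by
    rintro ⟨k, hk⟩
    have hk' := hk
    rw [hK] at hk'
    obtain ⟨x, hx, rfl⟩ := hk'
    exact ⟨⟨x, hx⟩, rfl⟩
  have hker : r.ker ≤ φ.ker := by
    intro h hh
    rw [MonoidHom.mem_ker] at hh ⊢
    exact hq h (congrArg Subtype.val hh)
  let φ' : K →* G := r.liftOfSurjective hr ⟨φ, hker⟩
  have hφ' : ∀ h : H, φ' ⟨q h, hmem h⟩ = φ h := fun h =>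
    r.liftOfRightInverse_comp_apply _ (Function.rightInverse_surjInv hr) ⟨φ, hker⟩ h
  have := Wr_finite (A := E) K
  obtain ⟨Ψ, hΨ⟩ := hLP (Wr K E) (Wr K G) (Wr_pgroup K hE hQ) (WrMap K π) (WrMap_surj K π hπ)
    ((Ind K φ').comp q)
  have hΨ' : ∀ x : P, WrMap K π (Ψ x) = Ind K φ' (q x) := fun x => DFunLike.congr_fun hΨ x
  have hright : ∀ x : P, (Ψ x).right = q x := fun x => congrArg SemidirectProduct.right (hΨ' x)
  have hleft : ∀ (x : P) (y : Q ⧸ K), π ((Ψ x).left y) = (Ind K φ' (q x)).left y := fun x y =>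
    congrFun (congrArg SemidirectProduct.left (hΨ' x)) y
  have hfix : ∀ h : H, (q h)⁻¹ • (QuotientGroup.mk 1 : Q ⧸ K) = QuotientGroup.mk 1 := by
    intro h
    have e1 : (q h)⁻¹ • (QuotientGroup.mk 1 : Q ⧸ K) = QuotientGroup.mk ((q h)⁻¹ * 1) := rfl
    rw [e1, QuotientGroup.eq]
    rw [mul_one, mul_one, inv_inv]
    exact hmem h
  let ψ : H →* E :=
    { toFun := fun h => (Ψ h).left (QuotientGroup.mk 1)
      map_one' := by
        show (Ψ 1).left (QuotientGroup.mk 1) = 1
        rw [map_one]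
        rfl
      map_mul' := by
        intro h h'
        show (Ψ ((h : P) * (h' : P))).left (QuotientGroup.mk 1) = _
        rw [map_mul, SemidirectProduct.mul_left, Pi.mul_apply, arrow_apply, hright, hfix] }
  refine ⟨ψ, ⟨Wr K E, inferInstance, inferInstance, Ψ, Wr_pgroup K hE hQ, ?_⟩, ?_⟩
  · intro h hh
    show (Ψ h).left (QuotientGroup.mk 1) = 1
    rw [hh]
    rfl
  · ext h
    show π ((Ψ h).left (QuotientGroup.mk 1)) = φ h
    rw [hleft, ← hφ' h]
    show φ' _ = φ' _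
    congr 1
    apply Subtype.ext
    show (sec K (QuotientGroup.mk 1))⁻¹ * q h * sec K ((q h)⁻¹ • (QuotientGroup.mk 1 : Q ⧸ K)) = q h
    rw [hfix, sec_one, inv_one, one_mul, mul_one]

end Pool.Agent.N271.PK
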